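import Pool.Agent.Lib.MP_de7bb2_an.H20Main

namespace Pool.Agent.Results.MP_de7bb2_an.OrderJump

open Pool.Agent.Lib.MP_de7bb2_an

/-- For every genus `G ≥ 2` there are a closed orientable surface of genus `G`, a negatively curved
metric on it and a one dimensional representation of its fundamental group whose twisted Ruelle zeta
function has order different from `2 G - 2` at zero. -/
theorem result (G : ℕ) (hG : 2 ≤ G) : ∃ (S : Surface G) (φ : ℂ → ℝ), NegCurved S φ ∧
    ∃ (ρ : S.Γ →* GL (Fin 1) ℂ) (m : ℤ), ZetaOrder S φ ρ m ∧ m ≠ 2 * (G : ℤ) - 2 :=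
  haveI : Fact (2 ≤ G) := ⟨hG⟩
  ⟨surf G, main_aux⟩

end Pool.Agent.Results.MP_de7bb2_an.OrderJump
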